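import Mathlib

/-!
Coherency of the monoids `S(M) = P(M) ⋊ M`.

Let `M` be the infinite right zero band `{r 0, r 1, ...}` with an identity adjoined.  We show that
`S(M)` is right coherent but not left coherent.  So `S(M)` is non-coherent, while the monoid
`T = S(M)` contains `S(M)` as a subsemigroup and is right coherent.
-/

namespace Pool.Agent.Results.MP_811a2c_al.OneSidedCoherent

universe u

/-! ### Acts, presentations, coherence -/

/-- A right act over the monoid `S`. -/
class RightAct (S : Type u) [Monoid S] (A : Type u) where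
  /-- the action -/
  toFun : A → S → A
  toFun_one : ∀ a, toFun a 1 = a
  toFun_mul : ∀ a s t, toFun a (s * t) = toFun (toFun a s) t

/-- `ract a s` is the element `a s` of the right act `A`. -/
def ract {S : Type u} [Monoid S] {A : Type u} [RightAct S A] (a : A) (s : S) : A :=
  RightAct.toFun a s

lemma ract_one {S : Type u} [Monoid S] {A : Type u} [RightAct S A] (a : A) :
    ract a (1 : S) = a := RightAct.toFun_one a

lemma ract_mul {S : Type u} [Monoid S] {A : Type u} [RightAct S A] (a : A) (s t : S) :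
    ract a (s * t) = ract (ract a s) t := RightAct.toFun_mul a s t

/-- The free right `S`-act on `n` free generators `(i, 1)`. -/
abbrev FreeAct (S : Type u) (n : ℕ) : Type u := Fin n × S

instance (S : Type u) [Monoid S] (n : ℕ) : RightAct S (FreeAct S n) where
  toFun x s := (x.1, x.2 * s)
  toFun_one x := by
    show (x.1, x.2 * 1) = x
    rw [mul_one]
  toFun_mul x s t := by
    show (x.1, x.2 * (s * t)) = (x.1, x.2 * s * t)
    rw [mul_assoc]

/-- The least act congruence containing the set of pairs `H`. -/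
inductive ConGen (S : Type u) [Monoid S] {A : Type u} [RightAct S A] (H : Set (A × A)) :
    A → A → Prop
  | of (p : A × A) (h : p ∈ H) : ConGen S H p.1 p.2
  | refl (x : A) : ConGen S H x x
  | symm (x y : A) (h : ConGen S H x y) : ConGen S H y x
  | trans (x y z : A) (h₁ : ConGen S H x y) (h₂ : ConGen S H y z) : ConGen S H x z
  | act (x y : A) (s : S) (h : ConGen S H x y) :
      ConGen S H (ract x s) (ract y s)

/-- A right act is finitely presented if it is isomorphic to `F / ρ` for a finitely generated free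
act `F` and a finitely generated congruence `ρ`; that is, if there is a surjective act morphism
from a finitely generated free act whose kernel is generated by a finite set of pairs. -/
def FinitelyPresented (S : Type u) [Monoid S] (A : Type u) [RightAct S A] : Prop :=
  ∃ (n : ℕ) (H : Set (FreeAct S n × FreeAct S n)), H.Finite ∧
    ∃ π : FreeAct S n → A, (∀ x (s : S), π (ract x s) = ract (π x) s) ∧
      Function.Surjective π ∧ ∀ x y, π x = π y ↔ ConGen S H x y

/-- A subact: a subset closed under the action. -/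
structure Subact (S : Type u) [Monoid S] (A : Type u) [RightAct S A] where
  /-- the underlying set -/
  carrier : Set A
  closed : ∀ a ∈ carrier, ∀ s : S, ract a s ∈ carrier

instance (S : Type u) [Monoid S] (A : Type u) [RightAct S A] (B : Subact S A) :
    RightAct S B.carrier where
  toFun b s := ⟨ract b.1 s, B.closed b.1 b.2 s⟩
  toFun_one b := Subtype.ext (ract_one b.1)
  toFun_mul b s t := Subtype.ext (ract_mul b.1 s t)

/-- A subact is finitely generated if it is the set of all `x s` with `x` in a finite set. -/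
def Subact.FG {S : Type u} [Monoid S] {A : Type u} [RightAct S A] (B : Subact S A) : Prop :=
  ∃ X : Set A, X.Finite ∧ B.carrier = {b | ∃ x ∈ X, ∃ s : S, b = ract x s}

/-- A right act is coherent if all its finitely generated subacts are finitely presented. -/
def CoherentAct (S : Type u) [Monoid S] (A : Type u) [RightAct S A] : Prop :=
  ∀ B : Subact S A, B.FG → FinitelyPresented S B.carrier

/-- A monoid is right coherent if all its finitely presented right acts are coherent. -/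
def RightCoherent (S : Type u) [Monoid S] : Prop :=
  ∀ (A : Type u) [RightAct S A], FinitelyPresented S A → CoherentAct S A

/-- Left coherence is the left-right dual: right coherence of the opposite monoid. -/
def LeftCoherent (S : Type u) [Monoid S] : Prop := RightCoherent Sᵐᵒᵖ

/-- A monoid is coherent if it is left and right coherent. -/
def Coherent (S : Type u) [Monoid S] : Prop := LeftCoherent S ∧ RightCoherent S

/-! ### The special semidirect product -/

/-- The underlying set `P(M) × M` of the monoid `S(M)`. -/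
@[ext] structure SP (M : Type u) where
  /-- the subset -/
  set : Set M
  /-- the element -/
  elt : M

instance (M : Type u) [Monoid M] : Monoid (SP M) where
  mul a b := ⟨a.set ∪ (fun y => a.elt * y) '' b.set, a.elt * b.elt⟩
  one := ⟨∅, 1⟩
  mul_assoc a b c := by
    refine SP.ext ?_ (mul_assoc a.elt b.elt c.elt)
    show (a.set ∪ (fun y => a.elt * y) '' b.set) ∪ (fun y => a.elt * b.elt * y) '' c.set =
      a.set ∪ (fun y => a.elt * y) '' (b.set ∪ (fun y => b.elt * y) '' c.set)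
    rw [Set.image_union, Set.union_assoc, Set.image_image]
    simp only [mul_assoc]
  one_mul a := by
    refine SP.ext ?_ (one_mul a.elt)
    show ∅ ∪ (fun y => (1 : M) * y) '' a.set = a.set
    simp
  mul_one a := by
    refine SP.ext ?_ (mul_one a.elt)
    show a.set ∪ (fun y => a.elt * y) '' ∅ = a.set
    simp

/-! ### The right zero band with an identity -/

/-- The infinite right zero band with an identity adjoined. -/
inductive RZ : Type
  | e : RZ
  | r (n : ℕ) : RZ
  deriving DecidableEq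

/-- `x y = y` if `y` is not the identity. -/
def RZ.mul' : RZ → RZ → RZ
  | x, RZ.e => x
  | _, RZ.r n => RZ.r n

instance : Monoid RZ where
  mul := RZ.mul'
  one := RZ.e
  mul_assoc x y z := by cases z <;> rfl
  one_mul x := by cases x <;> rfl
  mul_one x := by cases x <;> rfl

lemma mul_e (x : RZ) : x * RZ.e = x := rfl
lemma mul_r (x : RZ) (n : ℕ) : x * RZ.r n = RZ.r n := rfl

lemma mem_img (p z : RZ) (T : Set RZ) :
    z ∈ (fun y => p * y) '' T ↔ (z ≠ RZ.e ∧ z ∈ T) ∨ (z = p ∧ RZ.e ∈ T) := by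
  constructor
  · rintro ⟨y, hy, h⟩
    cases y with
    | e =>
      right
      exact ⟨h.symm, hy⟩
    | r n =>
      left
      have h' : RZ.r n = z := h
      subst h'
      exact ⟨fun hh => RZ.noConfusion hh, hy⟩
  · rintro (⟨h1, h2⟩ | ⟨h1, h2⟩)
    · cases z with
      | e => exact absurd rfl h1
      | r n => exact ⟨RZ.r n, h2, rfl⟩
    · exact ⟨RZ.e, h2, h1.symm⟩

/-! ### Elementary transitions -/

section General

variable {S : Type u} [Monoid S] {A : Type u} [RightAct S A]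

/-- An elementary transition for `H`. -/
def Step (H : Set (A × A)) (x y : A) : Prop :=
  ∃ p ∈ H, ∃ s : S, x = ract p.1 s ∧ y = ract p.2 s

lemma conGen_eqvGen (H : Set (A × A)) {x y : A} (h : ConGen S H x y) :
    Relation.EqvGen (Step (S := S) H) x y := by
  induction h with
  | of p hp =>
    exact Relation.EqvGen.rel _ _ ⟨p, hp, 1, (ract_one _).symm, (ract_one _).symm⟩
  | refl x => exact Relation.EqvGen.refl x
  | symm x y _ ih => exact Relation.EqvGen.symm _ _ ih
  | trans x y z _ _ ih1 ih2 => exact Relation.EqvGen.trans _ _ _ ih1 ih2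
  | act x y s _ ih =>
    clear * - ih
    induction ih with
    | rel x y h =>
      obtain ⟨p, hp, t, h1, h2⟩ := h
      refine Relation.EqvGen.rel _ _ ⟨p, hp, t * s, ?_, ?_⟩
      · rw [h1, ract_mul]
      · rw [h2, ract_mul]
    | refl x => exact Relation.EqvGen.refl _
    | symm x y _ ih => exact Relation.EqvGen.symm _ _ ih
    | trans x y z _ _ ih1 ih2 => exact Relation.EqvGen.trans _ _ _ ih1 ih2

/-- Induction principle: to map the congruence generated by `H` into an equivalence relation `R`,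
it is enough to map the elementary transitions. -/
lemma conGen_induct (H : Set (A × A)) (R : A → A → Prop) (hR : Equivalence R)
    (hs : ∀ p ∈ H, ∀ s : S, R (ract p.1 s) (ract p.2 s)) {x y : A}
    (h : ConGen S H x y) : R x y := by
  have h' := conGen_eqvGen H h
  clear h
  induction h' with
  | rel x y h =>
    obtain ⟨p, hp, t, rfl, rfl⟩ := h
    exact hs p hp t
  | refl x => exact hR.refl x
  | symm x y _ ih => exact hR.symm ih
  | trans x y z _ _ ih1 ih2 => exact hR.trans ih1 ih2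

end General

/-! ### Right coherence of `S(M)` -/

section Hmap

variable {Q : Type} (κ : RZ → Q) (R0 : Set RZ) (θ : RZ → Set RZ → Prop)

/-- A map on subsets: it keeps the full colour classes and the special points, and changes the
trace on a colour class in a way depending only on this trace. -/
def hmap (W : Set RZ) : Set RZ :=
  {z | (∀ w, κ w = κ z → w ∈ W) ∨ (z ∉ R0 ∧ θ z {w | w ∈ W ∧ κ w = κ z})}

/-- Unions of colour classes. -/
def Inv (U : Set RZ) : Prop := ∀ z w, κ z = κ w → z ∈ U → w ∈ U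

variable (hspec : ∀ z w, κ z = κ w → z ∈ R0 → z = w)

include hspec in
lemma hmap_special (W : Set RZ) (z : RZ) (hz : z ∈ R0) : z ∈ hmap κ R0 θ W ↔ z ∈ W := by
  constructor
  · rintro (h | h)
    · exact h z rfl
    · exact absurd hz h.1
  · intro h
    left
    intro w hw
    have := hspec z w hw.symm hz
    exact this ▸ h

include hspec in
lemma hmap_union (he : RZ.e ∈ R0) (P T : Set RZ) (p : RZ) (hP : Inv κ P) (hp : p ∈ R0) :
    hmap κ R0 θ (P ∪ (fun y => p * y) '' T) = P ∪ (fun y => p * y) '' (hmap κ R0 θ T) := by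
  ext z
  by_cases hz : z ∈ R0
  · rw [hmap_special κ R0 θ hspec _ z hz, Set.mem_union, Set.mem_union, mem_img, mem_img,
      hmap_special κ R0 θ hspec _ z hz, hmap_special κ R0 θ hspec _ RZ.e he]
  · have hze : z ≠ RZ.e := fun h => hz (h ▸ he)
    have hzp : z ≠ p := fun h => hz (h ▸ hp)
    by_cases hzP : z ∈ P
    · constructor
      · intro _
        exact Or.inl hzP
      · intro _
        left
        intro w hw
        exact Or.inl (hP z w hw.symm hzP)
    · have key : ∀ w, κ w = κ z → (w ∈ P ∪ (fun y => p * y) '' T ↔ w ∈ T) := by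
        intro w hw
        have h1 : w ∉ P := fun h => hzP (hP w z hw h)
        have h2 : w ∉ R0 := fun h => hz ((hspec w z hw h) ▸ h)
        have h3 : w ≠ RZ.e := fun h => h2 (h ▸ he)
        have h4 : w ≠ p := fun h => h2 (h ▸ hp)
        rw [Set.mem_union, mem_img]
        tauto
      have h5 : {w | w ∈ P ∪ (fun y => p * y) '' T ∧ κ w = κ z} = {w | w ∈ T ∧ κ w = κ z} := by
        ext w
        constructor
        · rintro ⟨h1, h2⟩
          exact ⟨(key w h2).1 h1, h2⟩
        · rintro ⟨h1, h2⟩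
          exact ⟨(key w h2).2 h1, h2⟩
      have h6 : z ∈ hmap κ R0 θ (P ∪ (fun y => p * y) '' T) ↔ z ∈ hmap κ R0 θ T := by
        show ((∀ w, κ w = κ z → w ∈ P ∪ (fun y => p * y) '' T) ∨
            (z ∉ R0 ∧ θ z {w | w ∈ P ∪ (fun y => p * y) '' T ∧ κ w = κ z})) ↔
          ((∀ w, κ w = κ z → w ∈ T) ∨ (z ∉ R0 ∧ θ z {w | w ∈ T ∧ κ w = κ z}))
        rw [h5]
        constructor
        · rintro (h | h)
          · exact Or.inl fun w hw => (key w hw).1 (h w hw)
          · exact Or.inr h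
        · rintro (h | h)
          · exact Or.inl fun w hw => (key w hw).2 (h w hw)
          · exact Or.inr h
      rw [h6, Set.mem_union, mem_img]
      constructor
      · intro h
        exact Or.inr (Or.inl ⟨hze, h⟩)
      · rintro (h | h | h)
        · exact absurd h hzP
        · exact h.2
        · exact absurd h.1 hzp

end Hmap

/-- The monoid `S(M)` for the right zero band with identity. -/
abbrev SRZ : Type := SP RZ

lemma sp_mul_set (a b : SRZ) : (a * b).set = a.set ∪ (fun y => a.elt * y) '' b.set := rfl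
lemma sp_mul_elt (a b : SRZ) : (a * b).elt = a.elt * b.elt := rfl

lemma act_free {n : ℕ} (x : FreeAct SRZ n) (s : SRZ) :
    (ract x s : FreeAct SRZ n) = (x.1, x.2 * s) := rfl

/-- Apply a map on subsets to the set component. -/
def mapF {n : ℕ} (h : Set RZ → Set RZ) (x : FreeAct SRZ n) : FreeAct SRZ n :=
  (x.1, ⟨h x.2.set, x.2.elt⟩)

lemma mapF_act {Q : Type} (κ : RZ → Q) (R0 : Set RZ) (θ : RZ → Set RZ → Prop)
    (hspec : ∀ z w, κ z = κ w → z ∈ R0 → z = w) (he : RZ.e ∈ R0) {n : ℕ} (x : FreeAct SRZ n)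
    (hx1 : Inv κ x.2.set) (hx2 : x.2.elt ∈ R0) (s : SRZ) :
    mapF (hmap κ R0 θ) (ract x s : FreeAct SRZ n) =
      ract x (⟨hmap κ R0 θ s.set, s.elt⟩ : SRZ) := by
  show ((x.1, ⟨hmap κ R0 θ (x.2.set ∪ (fun y => x.2.elt * y) '' s.set), x.2.elt * s.elt⟩) :
      FreeAct SRZ n) = (x.1, ⟨x.2.set ∪ (fun y => x.2.elt * y) '' (hmap κ R0 θ s.set),
        x.2.elt * s.elt⟩)
  rw [hmap_union κ R0 θ hspec he _ _ _ hx1 hx2]

lemma core (n m : ℕ) (H : Set (FreeAct SRZ n × FreeAct SRZ n)) (hH : H.Finite)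
    (a : Fin m → FreeAct SRZ n) :
    ∃ G : Set (FreeAct SRZ m × FreeAct SRZ m), G.Finite ∧ ∀ x y : FreeAct SRZ m,
      ConGen SRZ H (ract (a x.1) x.2) (ract (a y.1) y.2) ↔ ConGen SRZ G x y := by
  classical
  -- special points and relevant sets
  set R0 : Set RZ := {RZ.e, RZ.r 0} ∪ (fun p => p.1.2.elt) '' H ∪ (fun p => p.2.2.elt) '' H ∪
    Set.range (fun j => (a j).2.elt) with hR0
  have hR0f : R0.Finite := by
    refine Set.Finite.union (Set.Finite.union (Set.Finite.union ?_ ?_) ?_) ?_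
    · exact Set.toFinite _
    · exact hH.image _
    · exact hH.image _
    · exact Set.finite_range _
  have he : RZ.e ∈ R0 := Or.inl (Or.inl (Or.inl (Or.inl rfl)))
  have hr0 : RZ.r 0 ∈ R0 := Or.inl (Or.inl (Or.inl (Or.inr rfl)))
  have hH1 : ∀ p ∈ H, p.1.2.elt ∈ R0 := fun p hp => Or.inl (Or.inl (Or.inr ⟨p, hp, rfl⟩))
  have hH2 : ∀ p ∈ H, p.2.2.elt ∈ R0 := fun p hp => Or.inl (Or.inr ⟨p, hp, rfl⟩)
  have ha : ∀ j, (a j).2.elt ∈ R0 := fun j => Or.inr ⟨j, rfl⟩
  set PP : Set (Set RZ) := (fun p => p.1.2.set) '' H ∪ (fun p => p.2.2.set) '' H ∪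
    Set.range (fun j => (a j).2.set) with hPP
  have hPPf : PP.Finite := by
    refine Set.Finite.union (Set.Finite.union ?_ ?_) ?_
    · exact hH.image _
    · exact hH.image _
    · exact Set.finite_range _
  have hP1 : ∀ p ∈ H, p.1.2.set ∈ PP := fun p hp => Or.inl (Or.inl ⟨p, hp, rfl⟩)
  have hP2 : ∀ p ∈ H, p.2.2.set ∈ PP := fun p hp => Or.inl (Or.inr ⟨p, hp, rfl⟩)
  have hPa : ∀ j, (a j).2.set ∈ PP := fun j => Or.inr ⟨j, rfl⟩
  have : Finite PP := hPPf
  have : Finite R0 := hR0f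
  -- the colouring
  let κ : RZ → (Set PP × Set R0) := fun z => ({P | z ∈ P.1}, {c | c.1 = z})
  have hspec : ∀ z w, κ z = κ w → z ∈ R0 → z = w := by
    intro z w h hz
    have h2 : ({c | c.1 = z} : Set R0) = {c | c.1 = w} := congrArg Prod.snd h
    have h3 : (⟨z, hz⟩ : R0) ∈ ({c | c.1 = z} : Set R0) := rfl
    rw [h2] at h3
    exact h3
  have hinv : ∀ P ∈ PP, Inv κ P := by
    intro P hP z w h hz
    have h2 : ({P | z ∈ P.1} : Set PP) = {P | w ∈ P.1} := congrArg Prod.fst h
    have h3 : (⟨P, hP⟩ : PP) ∈ ({P | z ∈ P.1} : Set PP) := hz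
    rw [h2] at h3
    exact h3
  have hBfin : {U : Set RZ | Inv κ U}.Finite := by
    refine Set.Finite.subset (Set.finite_range (fun V : Set (Set PP × Set R0) => κ ⁻¹' V)) ?_
    intro U hU
    refine ⟨κ '' U, ?_⟩
    ext z
    constructor
    · rintro ⟨w, hw, h⟩
      exact hU w z h hw
    · intro hz
      exact ⟨z, hz, rfl⟩
  -- the relation
  set K : FreeAct SRZ m → FreeAct SRZ m → Prop := fun x y =>
    ConGen SRZ H (ract (a x.1) x.2) (ract (a y.1) y.2) with hK
  have Kact : ∀ x y (s : SRZ), K x y → K (ract x s) (ract y s) := by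
    intro x y s h
    have := ConGen.act _ _ s h
    rw [← ract_mul, ← ract_mul] at this
    exact this
  have Ksymm : ∀ x y, K x y → K y x := fun x y h => ConGen.symm _ _ h
  have Ktrans : ∀ x y z, K x y → K y z → K x z := fun x y z h1 h2 => ConGen.trans _ _ _ h1 h2
  have Krefl : ∀ x, K x x := fun x => ConGen.refl _
  -- closure of the relation under the maps
  have Hmap : ∀ (θ : RZ → Set RZ → Prop) (x y : FreeAct SRZ n), ConGen SRZ H x y →
      ConGen SRZ H (mapF (hmap κ R0 θ) x) (mapF (hmap κ R0 θ) y) := by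
    intro θ x y h
    refine conGen_induct H (fun x y => ConGen SRZ H (mapF (hmap κ R0 θ) x)
      (mapF (hmap κ R0 θ) y)) ⟨fun x => ConGen.refl _, fun h => ConGen.symm _ _ h,
        fun h1 h2 => ConGen.trans _ _ _ h1 h2⟩ ?_ h
    intro p hp s
    rw [mapF_act κ R0 θ hspec he p.1 (hinv _ (hP1 p hp)) (hH1 p hp) s,
      mapF_act κ R0 θ hspec he p.2 (hinv _ (hP2 p hp)) (hH2 p hp) s]
    exact ConGen.act _ _ _ (ConGen.of p hp)
  have Kmap : ∀ (θ : RZ → Set RZ → Prop) (x y : FreeAct SRZ m), K x y →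
      K (mapF (hmap κ R0 θ) x) (mapF (hmap κ R0 θ) y) := by
    intro θ x y h
    have h1 := Hmap θ _ _ h
    rw [mapF_act κ R0 θ hspec he (a x.1) (hinv _ (hPa x.1)) (ha x.1) x.2,
      mapF_act κ R0 θ hspec he (a y.1) (hinv _ (hPa y.1)) (ha y.1) y.2] at h1
    exact h1
  -- second components
  have Hsnd : ∀ (k : ℕ), RZ.r k ∉ R0 → ∀ x y : FreeAct SRZ n, ConGen SRZ H x y →
      (x.2.elt = RZ.r k ↔ y.2.elt = RZ.r k) := by
    intro k hk x y h
    refine conGen_induct H (fun x y => (x.2.elt = RZ.r k ↔ y.2.elt = RZ.r k))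
      ⟨fun x => Iff.rfl, fun h => h.symm, fun h1 h2 => h1.trans h2⟩ ?_ h
    intro p hp s
    show (p.1.2.elt * s.elt = RZ.r k ↔ p.2.2.elt * s.elt = RZ.r k)
    cases hs : s.elt with
    | e =>
      rw [mul_e, mul_e]
      constructor
      · intro h
        exact absurd (h ▸ hH1 p hp) hk
      · intro h
        exact absurd (h ▸ hH2 p hp) hk
    | r j => rw [mul_r, mul_r]
  have Ksnd : ∀ x y : FreeAct SRZ m, K x y → ∀ k : ℕ, RZ.r k ∉ R0 → x.2.elt = RZ.r k →
      y.2.elt = RZ.r k := by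
    intro x y h k hk hx
    have h1 := Hsnd k hk _ _ h
    have h2 : ((a x.1).2.elt * x.2.elt = RZ.r k ↔ (a y.1).2.elt * y.2.elt = RZ.r k) := h1
    rw [hx, mul_r] at h2
    have h3 := h2.1 rfl
    cases hy : y.2.elt with
    | e =>
      rw [hy, mul_e] at h3
      exact absurd (h3 ▸ ha y.1) hk
    | r j =>
      rw [hy, mul_r] at h3
      exact h3
  -- the finite generating set
  let D : Set (FreeAct SRZ m) := {x | Inv κ x.2.set ∧ x.2.elt ∈ R0}
  have hDf : D.Finite := by
    have h1 : ((Set.univ : Set (Fin m)) ×ˢ ({U : Set RZ | Inv κ U} ×ˢ R0)).Finite :=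
      Set.finite_univ.prod (hBfin.prod hR0f)
    refine Set.Finite.subset (h1.image (fun q => ((q.1, ⟨q.2.1, q.2.2⟩) : FreeAct SRZ m))) ?_
    rintro ⟨i, s⟩ ⟨h1, h2⟩
    exact ⟨(i, (s.set, s.elt)), ⟨trivial, h1, h2⟩, rfl⟩
  let G : Set (FreeAct SRZ m × FreeAct SRZ m) := {p | p.1 ∈ D ∧ p.2 ∈ D ∧ K p.1 p.2}
  have hGf : G.Finite := by
    refine Set.Finite.subset (hDf.prod hDf) ?_
    rintro p ⟨h1, h2, -⟩
    exact ⟨h1, h2⟩
  refine ⟨G, hGf, ?_⟩
  intro x y
  constructor
  swap
  · intro h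
    refine conGen_induct G K ⟨Krefl, fun h => Ksymm _ _ h, fun h1 h2 => Ktrans _ _ _ h1 h2⟩ ?_ h
    rintro p ⟨-, -, hp⟩ s
    exact Kact _ _ s hp
  -- main part
  have hfullInv : ∀ W : Set RZ, ∀ E : RZ → Prop, (∀ z w, κ z = κ w → (E z ↔ E w)) →
      Inv κ {z | (∀ w, κ w = κ z → w ∈ W) ∨ (z ∉ R0 ∧ E z)} := by
    intro W E hE z w hzw hz
    rcases hz with hz | ⟨hz1, hz2⟩
    · left
      intro v hv
      exact hz v (hv.trans hzw.symm)
    · right
      exact ⟨fun hw => hz1 ((hspec w z hzw.symm hw) ▸ hw), (hE z w hzw).1 hz2⟩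
  have main : ∀ x y : FreeAct SRZ m, x.2.elt ∈ R0 → y.2.elt ∈ R0 → K x y →
      ConGen SRZ G x y := by
    intro x y hx hy h
    set U := x.2.set with hU
    set V := y.2.set with hV
    let Dif : RZ → Prop := fun z => ∃ w, κ w = κ z ∧ ¬ (w ∈ U ↔ w ∈ V)
    have hDif : ∀ z w, κ z = κ w → (Dif z ↔ Dif w) := by
      intro z w hzw
      show (∃ v, κ v = κ z ∧ ¬ (v ∈ U ↔ v ∈ V)) ↔ (∃ v, κ v = κ w ∧ ¬ (v ∈ U ↔ v ∈ V))
      rw [hzw]
    let lo : Set RZ → Set RZ := fun W => {z | (∀ w, κ w = κ z → w ∈ W) ∨ (z ∉ R0 ∧ False)}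
    let hi : Set RZ → Set RZ := fun W => {z | (∀ w, κ w = κ z → w ∈ W) ∨ (z ∉ R0 ∧ Dif z)}
    have lo_le : ∀ W z, z ∈ lo W → z ∈ W := by
      rintro W z (h | h)
      · exact h z rfl
      · exact h.2.elim
    have invlo : ∀ W, Inv κ (lo W) := fun W => hfullInv W (fun _ => False) (fun _ _ _ => Iff.rfl)
    have invhi : ∀ W, Inv κ (hi W) := fun W => hfullInv W Dif hDif
    -- traces differ on classes with `Dif`
    have tr : ∀ z, Dif z → {w | w ∈ U ∧ κ w = κ z} ≠ {w | w ∈ V ∧ κ w = κ z} := by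
      rintro z ⟨w, hw, hne⟩ heq
      apply hne
      have h1 : w ∈ {w | w ∈ U ∧ κ w = κ z} ↔ w ∈ {w | w ∈ V ∧ κ w = κ z} := by rw [heq]
      constructor
      · intro h
        exact (h1.1 ⟨h, hw⟩).1
      · intro h
        exact (h1.2 ⟨h, hw⟩).1
    let xl : FreeAct SRZ m := (x.1, ⟨lo U, x.2.elt⟩)
    let xh : FreeAct SRZ m := (x.1, ⟨hi U, x.2.elt⟩)
    let yl : FreeAct SRZ m := (y.1, ⟨lo V, y.2.elt⟩)
    let yh : FreeAct SRZ m := (y.1, ⟨hi V, y.2.elt⟩)
    have K1 : K xl yl := Kmap (fun _ _ => False) x y h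
    have K2 : K xh yl := by
      have h1 := Kmap (fun z t => Dif z ∧ t = {w | w ∈ U ∧ κ w = κ z}) x y h
      have e1 : hmap κ R0 (fun z t => Dif z ∧ t = {w | w ∈ U ∧ κ w = κ z}) U = hi U := by
        ext z
        constructor
        · rintro (h | ⟨h1, h2, -⟩)
          · exact Or.inl h
          · exact Or.inr ⟨h1, h2⟩
        · rintro (h | ⟨h1, h2⟩)
          · exact Or.inl h
          · exact Or.inr ⟨h1, h2, rfl⟩
      have e2 : hmap κ R0 (fun z t => Dif z ∧ t = {w | w ∈ U ∧ κ w = κ z}) V = lo V := by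
        ext z
        constructor
        · rintro (h | ⟨h1, h2, h3⟩)
          · exact Or.inl h
          · exact absurd h3.symm (tr z h2)
        · rintro (h | ⟨h1, h2⟩)
          · exact Or.inl h
          · exact h2.elim
      have e3 : mapF (hmap κ R0 (fun z t => Dif z ∧ t = {w | w ∈ U ∧ κ w = κ z})) x = xh := by
        show ((x.1, ⟨hmap κ R0 (fun z t => Dif z ∧ t = {w | w ∈ U ∧ κ w = κ z}) U, x.2.elt⟩) :
          FreeAct SRZ m) = (x.1, ⟨hi U, x.2.elt⟩)
        rw [e1]
      have e4 : mapF (hmap κ R0 (fun z t => Dif z ∧ t = {w | w ∈ U ∧ κ w = κ z})) y = yl := by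
        show ((y.1, ⟨hmap κ R0 (fun z t => Dif z ∧ t = {w | w ∈ U ∧ κ w = κ z}) V, y.2.elt⟩) :
          FreeAct SRZ m) = (y.1, ⟨lo V, y.2.elt⟩)
        rw [e2]
      rw [e3, e4] at h1
      exact h1
    have K3 : K xl yh := by
      have h1 := Kmap (fun z t => Dif z ∧ t = {w | w ∈ V ∧ κ w = κ z}) x y h
      have e1 : hmap κ R0 (fun z t => Dif z ∧ t = {w | w ∈ V ∧ κ w = κ z}) V = hi V := by
        ext z
        constructor
        · rintro (h | ⟨h1, h2, -⟩)
          · exact Or.inl h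
          · exact Or.inr ⟨h1, h2⟩
        · rintro (h | ⟨h1, h2⟩)
          · exact Or.inl h
          · exact Or.inr ⟨h1, h2, rfl⟩
      have e2 : hmap κ R0 (fun z t => Dif z ∧ t = {w | w ∈ V ∧ κ w = κ z}) U = lo U := by
        ext z
        constructor
        · rintro (h | ⟨h1, h2, h3⟩)
          · exact Or.inl h
          · exact absurd h3 (tr z h2)
        · rintro (h | ⟨h1, h2⟩)
          · exact Or.inl h
          · exact h2.elim
      have e3 : mapF (hmap κ R0 (fun z t => Dif z ∧ t = {w | w ∈ V ∧ κ w = κ z})) x = xl := by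
        show ((x.1, ⟨hmap κ R0 (fun z t => Dif z ∧ t = {w | w ∈ V ∧ κ w = κ z}) U, x.2.elt⟩) :
          FreeAct SRZ m) = (x.1, ⟨lo U, x.2.elt⟩)
        rw [e2]
      have e4 : mapF (hmap κ R0 (fun z t => Dif z ∧ t = {w | w ∈ V ∧ κ w = κ z})) y = yh := by
        show ((y.1, ⟨hmap κ R0 (fun z t => Dif z ∧ t = {w | w ∈ V ∧ κ w = κ z}) V, y.2.elt⟩) :
          FreeAct SRZ m) = (y.1, ⟨hi V, y.2.elt⟩)
        rw [e1]
      rw [e3, e4] at h1
      exact h1
    have g1 : ConGen SRZ G xl yl := ConGen.of (xl, yl) ⟨⟨invlo U, hx⟩, ⟨invlo V, hy⟩, K1⟩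
    have g2 : ConGen SRZ G xl xh := ConGen.of (xl, xh)
      ⟨⟨invlo U, hx⟩, ⟨invhi U, hx⟩, Ktrans _ _ _ K1 (Ksymm _ _ K2)⟩
    have g3 : ConGen SRZ G yl yh := ConGen.of (yl, yh)
      ⟨⟨invlo V, hy⟩, ⟨invhi V, hy⟩, Ktrans _ _ _ (Ksymm _ _ K1) K3⟩
    -- multiplying by sets of non special points
    have mulT : ∀ (i : Fin m) (W T : Set RZ) (c : RZ), RZ.e ∉ T →
        (ract ((i, ⟨W, c⟩) : FreeAct SRZ m) (⟨T, RZ.e⟩ : SRZ) : FreeAct SRZ m) =
          (i, ⟨W ∪ T, c⟩) := by
      intro i W T c hT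
      show ((i, ⟨W ∪ (fun y => c * y) '' T, c * RZ.e⟩) : FreeAct SRZ m) = (i, ⟨W ∪ T, c⟩)
      have h1 : (fun y => c * y) '' T = T := by
        ext z
        rw [mem_img]
        constructor
        · rintro (h | h)
          · exact h.2
          · exact absurd h.2 hT
        · intro h
          exact Or.inl ⟨fun hh => hT (hh ▸ h), h⟩
      rw [h1, mul_e]
    let NU : Set RZ := {z | z ∉ R0 ∧ z ∈ U}
    let NV : Set RZ := {z | z ∉ R0 ∧ z ∈ V}
    let T : Set RZ := {z | z ∉ R0 ∧ ¬ Dif z ∧ z ∈ U}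
    have heNU : RZ.e ∉ NU := fun h => h.1 he
    have heNV : RZ.e ∉ NV := fun h => h.1 he
    have heT : RZ.e ∉ T := fun h => h.1 he
    have special_lo : ∀ W z, z ∈ R0 → z ∈ W → z ∈ lo W := by
      intro W z hz hzW
      left
      intro w hw
      exact (hspec z w hw.symm hz) ▸ hzW
    have s1 : lo U ∪ NU = U := by
      ext z
      constructor
      · rintro (h | h)
        · exact lo_le U z h
        · exact h.2
      · intro h
        by_cases hz : z ∈ R0
        · exact Or.inl (special_lo U z hz h)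
        · exact Or.inr ⟨hz, h⟩
    have s2 : lo V ∪ NV = V := by
      ext z
      constructor
      · rintro (h | h)
        · exact lo_le V z h
        · exact h.2
      · intro h
        by_cases hz : z ∈ R0
        · exact Or.inl (special_lo V z hz h)
        · exact Or.inr ⟨hz, h⟩
    have s3 : hi U ∪ NU = hi U ∪ T := by
      ext z
      constructor
      · rintro (h | h)
        · exact Or.inl h
        · by_cases hd : Dif z
          · exact Or.inl (Or.inr ⟨h.1, hd⟩)
          · exact Or.inr ⟨h.1, hd, h.2⟩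
      · rintro (h | h)
        · exact Or.inl h
        · exact Or.inr ⟨h.1, h.2.2⟩
    have s4 : hi V ∪ NV = hi V ∪ T := by
      ext z
      have hdz : ¬ Dif z → (z ∈ U ↔ z ∈ V) := by
        intro hd
        by_contra hc
        exact hd ⟨z, rfl, hc⟩
      constructor
      · rintro (h | h)
        · exact Or.inl h
        · by_cases hd : Dif z
          · exact Or.inl (Or.inr ⟨h.1, hd⟩)
          · exact Or.inr ⟨h.1, hd, (hdz hd).2 h.2⟩
      · rintro (h | h)
        · exact Or.inl h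
        · exact Or.inr ⟨h.1, (hdz h.2.1).1 h.2.2⟩
    have t1 : ConGen SRZ G x (x.1, ⟨hi U ∪ T, x.2.elt⟩) := by
      have h1 := ConGen.act _ _ (⟨NU, RZ.e⟩ : SRZ) g2
      rw [mulT _ _ _ _ heNU, mulT _ _ _ _ heNU, s1, s3] at h1
      exact h1
    have t2 : ConGen SRZ G (x.1, ⟨lo U ∪ T, x.2.elt⟩) (x.1, ⟨hi U ∪ T, x.2.elt⟩) := by
      have h1 := ConGen.act _ _ (⟨T, RZ.e⟩ : SRZ) g2
      rw [mulT _ _ _ _ heT, mulT _ _ _ _ heT] at h1
      exact h1
    have t3 : ConGen SRZ G y (y.1, ⟨hi V ∪ T, y.2.elt⟩) := by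
      have h1 := ConGen.act _ _ (⟨NV, RZ.e⟩ : SRZ) g3
      rw [mulT _ _ _ _ heNV, mulT _ _ _ _ heNV, s2, s4] at h1
      exact h1
    have t4 : ConGen SRZ G (y.1, ⟨lo V ∪ T, y.2.elt⟩) (y.1, ⟨hi V ∪ T, y.2.elt⟩) := by
      have h1 := ConGen.act _ _ (⟨T, RZ.e⟩ : SRZ) g3
      rw [mulT _ _ _ _ heT, mulT _ _ _ _ heT] at h1
      exact h1
    have t5 : ConGen SRZ G (x.1, ⟨lo U ∪ T, x.2.elt⟩) (y.1, ⟨lo V ∪ T, y.2.elt⟩) := by
      have h1 := ConGen.act _ _ (⟨T, RZ.e⟩ : SRZ) g1
      rw [mulT _ _ _ _ heT, mulT _ _ _ _ heT] at h1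
      exact h1
    exact ConGen.trans _ _ _ t1 (ConGen.trans _ _ _ (ConGen.symm _ _ t2)
      (ConGen.trans _ _ _ t5 (ConGen.trans _ _ _ t4 (ConGen.symm _ _ t3))))
  intro h
  have h' : K x y := h
  by_cases hx : x.2.elt ∈ R0
  · by_cases hy : y.2.elt ∈ R0
    · exact main x y hx hy h'
    · exfalso
      cases hye : y.2.elt with
      | e => exact hy (hye ▸ he)
      | r k =>
        have hk : RZ.r k ∉ R0 := hye ▸ hy
        exact hk ((Ksnd y x (Ksymm _ _ h') k hk hye) ▸ hx)
  · cases hxe : x.2.elt with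
    | e => exact absurd (hxe ▸ he) hx
    | r k =>
      have hk : RZ.r k ∉ R0 := hxe ▸ hx
      have hye := Ksnd x y h' k hk hxe
      have h1 := Kact x y (⟨∅, RZ.r 0⟩ : SRZ) h'
      have h2 := main _ _ (by
        show x.2.elt * RZ.r 0 ∈ R0
        rw [mul_r]
        exact hr0) (by
        show y.2.elt * RZ.r 0 ∈ R0
        rw [mul_r]
        exact hr0) h1
      have h3 := ConGen.act _ _ (⟨∅, RZ.r k⟩ : SRZ) h2
      have e1 : ∀ z : FreeAct SRZ m, z.2.elt = RZ.r k →
          (ract (ract z (⟨∅, RZ.r 0⟩ : SRZ) : FreeAct SRZ m)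
            (⟨∅, RZ.r k⟩ : SRZ) : FreeAct SRZ m) = z := by
        intro z hz
        show ((z.1, ⟨(z.2.set ∪ (fun y => z.2.elt * y) '' ∅) ∪
          (fun y => z.2.elt * RZ.r 0 * y) '' ∅, z.2.elt * RZ.r 0 * RZ.r k⟩) : FreeAct SRZ m) = z
        rw [Set.image_empty, Set.image_empty, Set.union_empty, Set.union_empty, mul_r, ← hz]
      rw [e1 x hxe, e1 y hye] at h3
      exact h3

theorem rightCoherent_SRZ : RightCoherent SRZ := by
  classical
  intro A _ hA B hB
  obtain ⟨n, H, hH, π, hπ, hsurj, hker⟩ := hA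
  obtain ⟨X, hX, hBX⟩ := hB
  obtain ⟨m, b, hb⟩ : ∃ (m : ℕ) (b : Fin m → A), Set.range b = X := by
    obtain ⟨m, ⟨e⟩⟩ := (Set.finite_coe_iff.2 hX).exists_equiv_fin
    refine ⟨m, fun i => (e.symm i : A), ?_⟩
    ext x
    constructor
    · rintro ⟨i, rfl⟩
      exact (e.symm i).2
    · intro hx
      exact ⟨e ⟨x, hx⟩, by simp⟩
  choose a ha using fun j => hsurj (b j)
  obtain ⟨G, hG, hGK⟩ := core n m H hH a
  have hmem : ∀ x : FreeAct SRZ m, ract (b x.1) x.2 ∈ B.carrier := by
    intro x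
    rw [hBX]
    exact ⟨b x.1, hb ▸ ⟨x.1, rfl⟩, x.2, rfl⟩
  refine ⟨m, G, hG, fun x => ⟨ract (b x.1) x.2, hmem x⟩, ?_, ?_, ?_⟩
  · intro x s
    apply Subtype.ext
    show ract (b x.1) (x.2 * s) = ract (ract (b x.1) x.2) s
    rw [ract_mul]
  · rintro ⟨y, hy⟩
    have hy' := hy
    rw [hBX] at hy'
    obtain ⟨x, hx, s, rfl⟩ := hy'
    rw [← hb] at hx
    obtain ⟨j, rfl⟩ := hx
    exact ⟨(j, s), rfl⟩
  · intro x y
    rw [← hGK x y, ← hker, hπ, hπ, ha, ha]
    constructor
    · intro h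
      exact congrArg Subtype.val h
    · intro h
      exact Subtype.ext h

/-! ### `S(M)` is not left coherent -/

/-- If a finitely presented act is generated by finitely many elements, then the kernel of the
corresponding map from the free act is finitely generated. -/
lemma kernel_fg {S : Type u} [Monoid S] {A : Type u} [RightAct S A] (hA : FinitelyPresented S A)
    (m : ℕ) (π : FreeAct S m → A) (hπ : ∀ x (s : S), π (ract x s) = ract (π x) s)
    (hs : Function.Surjective π) :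
    ∃ G : Set (FreeAct S m × FreeAct S m), G.Finite ∧ ∀ x y, π x = π y ↔ ConGen S G x y := by
  obtain ⟨n, H, hH, ψ, hψ, hψs, hker⟩ := hA
  -- lift the generators in both directions
  choose g hg using fun i : Fin n => hs (ψ (i, 1))
  choose f hf using fun j : Fin m => hψs (π (j, 1))
  let g' : FreeAct S n → FreeAct S m := fun x => ract (g x.1) x.2
  have hg'act : ∀ x (s : S), g' (ract x s) = ract (g' x) s := by
    intro x s
    show ract (g x.1) (x.2 * s) = ract (ract (g x.1) x.2) s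
    rw [ract_mul]
  have hfree : ∀ (k : ℕ) (x : FreeAct S k), (ract ((x.1, 1) : FreeAct S k) x.2 :
      FreeAct S k) = x := by
    intro k x
    show ((x.1, 1 * x.2) : FreeAct S k) = x
    rw [one_mul]
  have hπg' : ∀ x, π (g' x) = ψ x := by
    intro x
    show π (ract (g x.1) x.2) = ψ x
    rw [hπ, hg, ← hψ, hfree]
  let G1 : Set (FreeAct S m × FreeAct S m) := (fun p => (g' p.1, g' p.2)) '' H
  let G2 : Set (FreeAct S m × FreeAct S m) :=
    Set.range (fun j : Fin m => (((j, 1) : FreeAct S m), g' (f j)))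
  refine ⟨G1 ∪ G2, (hH.image _).union (Set.finite_range _), ?_⟩
  intro x y
  constructor
  · intro h
    have step : ∀ z : FreeAct S m, ConGen S (G1 ∪ G2) z (g' (ract (f z.1) z.2)) := by
      intro z
      have h1 : ConGen S (G1 ∪ G2) ((z.1, 1) : FreeAct S m) (g' (f z.1)) :=
        ConGen.of (((z.1, 1) : FreeAct S m), g' (f z.1)) (Or.inr ⟨z.1, rfl⟩)
      have h2 := ConGen.act _ _ z.2 h1
      rw [hfree, ← hg'act] at h2
      exact h2
    have h3 : ConGen S H (ract (f x.1) x.2) (ract (f y.1) y.2) := by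
      rw [← hker, hψ, hψ, hf, hf, ← hπ, ← hπ, hfree, hfree]
      exact h
    have h4 : ConGen S (G1 ∪ G2) (g' (ract (f x.1) x.2))
        (g' (ract (f y.1) y.2)) := by
      refine conGen_induct H (fun u v => ConGen S (G1 ∪ G2) (g' u) (g' v))
        ⟨fun x => ConGen.refl _, fun h => ConGen.symm _ _ h,
          fun h1 h2 => ConGen.trans _ _ _ h1 h2⟩ ?_ h3
      intro p hp s
      rw [hg'act, hg'act]
      exact ConGen.act _ _ s (ConGen.of (g' p.1, g' p.2) (Or.inl ⟨p, hp, rfl⟩))
    exact ConGen.trans _ _ _ (step x) (ConGen.trans _ _ _ h4 (ConGen.symm _ _ (step y)))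
  · intro h
    refine conGen_induct (G1 ∪ G2) (fun u v => π u = π v)
      ⟨fun _ => rfl, fun h => h.symm, fun h1 h2 => h1.trans h2⟩ ?_ h
    rintro p (⟨q, hq, rfl⟩ | ⟨j, rfl⟩) s
    · have e1 : π (g' q.1) = π (g' q.2) :=
        (hπg' q.1).trans (((hker _ _).2 (ConGen.of q hq)).trans (hπg' q.2).symm)
      exact (hπ (g' q.1) s).trans ((congrArg (fun z => ract z s) e1).trans (hπ (g' q.2) s).symm)
    · have e1 : π ((j, 1) : FreeAct S m) = π (g' (f j)) := (hf j).symm.trans (hπg' (f j)).symm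
      exact (hπ _ s).trans ((congrArg (fun z => ract z s) e1).trans (hπ (g' (f j)) s).symm)

open MulOpposite in
theorem not_leftCoherent_SRZ : ¬ LeftCoherent SRZ := by
  classical
  intro hcoh
  -- the free act on one generator over the opposite monoid
  have hfp : FinitelyPresented SRZᵐᵒᵖ (FreeAct SRZᵐᵒᵖ 1) := by
    refine ⟨1, ∅, Set.finite_empty, id, fun _ _ => rfl, Function.surjective_id, ?_⟩
    intro x y
    constructor
    · intro h
      have h' : x = y := h
      rw [h']
      exact ConGen.refl _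
    · intro h
      refine conGen_induct ∅ (fun u v => id u = id v) ⟨fun _ => rfl, fun h => h.symm,
        fun h1 h2 => h1.trans h2⟩ ?_ h
      intro p hp
      exact absurd hp (Set.notMem_empty p)
  let a : SRZᵐᵒᵖ := op ⟨{RZ.e}, RZ.r 0⟩
  obtain ⟨B, hBc⟩ : ∃ B : Subact SRZᵐᵒᵖ (FreeAct SRZᵐᵒᵖ 1), B.carrier =
      {b | ∃ x ∈ ({((0 : Fin 1), a)} : Set (FreeAct SRZᵐᵒᵖ 1)), ∃ s : SRZᵐᵒᵖ, b = ract x s} := by
    refine ⟨⟨{b | ∃ x ∈ ({((0 : Fin 1), a)} : Set (FreeAct SRZᵐᵒᵖ 1)), ∃ s : SRZᵐᵒᵖ,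
      b = ract x s}, ?_⟩, rfl⟩
    rintro b ⟨x, hx, s, rfl⟩ t
    exact ⟨x, hx, s * t, (ract_mul x s t).symm⟩
  have hB : FinitelyPresented SRZᵐᵒᵖ B.carrier :=
    hcoh (FreeAct SRZᵐᵒᵖ 1) hfp B ⟨{((0 : Fin 1), a)}, Set.finite_singleton _, hBc⟩
  let π : FreeAct SRZᵐᵒᵖ 1 → B.carrier := fun x =>
    ⟨ract (((0 : Fin 1), a) : FreeAct SRZᵐᵒᵖ 1) x.2, by
      rw [hBc]
      exact ⟨_, rfl, x.2, rfl⟩⟩
  have hπ : ∀ x (s : SRZᵐᵒᵖ), π (ract x s) = ract (π x) s := by
    intro x s
    apply Subtype.ext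
    show ract (((0 : Fin 1), a) : FreeAct SRZᵐᵒᵖ 1) (x.2 * s) =
      ract (ract (((0 : Fin 1), a) : FreeAct SRZᵐᵒᵖ 1) x.2) s
    rw [ract_mul]
  have hπs : Function.Surjective π := by
    rintro ⟨b, hb⟩
    have hb' := hb
    rw [hBc] at hb'
    obtain ⟨x, hx, s, rfl⟩ := hb'
    have hx' : x = ((0 : Fin 1), a) := hx
    subst hx'
    exact ⟨((0 : Fin 1), s), rfl⟩
  obtain ⟨G, hG, hker⟩ := kernel_fg hB 1 π hπ hπs
  -- the kernel in terms of the monoid
  have hcond : ∀ s t : SRZ, (s.set ∪ {s.elt} = t.set ∪ {t.elt}) →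
      π ((0 : Fin 1), op s) = π ((0 : Fin 1), op t) := by
    intro s t h
    apply Subtype.ext
    show (((0 : Fin 1), a * op s) : FreeAct SRZᵐᵒᵖ 1) = ((0 : Fin 1), a * op t)
    have h1 : s * ⟨{RZ.e}, RZ.r 0⟩ = t * ⟨{RZ.e}, RZ.r 0⟩ := by
      refine SP.ext ?_ rfl
      show s.set ∪ (fun y => s.elt * y) '' {RZ.e} = t.set ∪ (fun y => t.elt * y) '' {RZ.e}
      rw [Set.image_singleton, Set.image_singleton, mul_e, mul_e]
      exact h
    have h2 : a * op s = a * op t := by
      show op (s * ⟨{RZ.e}, RZ.r 0⟩) = op (t * ⟨{RZ.e}, RZ.r 0⟩)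
      rw [h1]
    rw [h2]
  have hcond' : ∀ x y : FreeAct SRZᵐᵒᵖ 1, π x = π y →
      (unop x.2).set ∪ {(unop x.2).elt} = (unop y.2).set ∪ {(unop y.2).elt} := by
    intro x y h
    have h1 : (((0 : Fin 1), a * x.2) : FreeAct SRZᵐᵒᵖ 1) = ((0 : Fin 1), a * y.2) :=
      congrArg Subtype.val h
    have h2 : a * x.2 = a * y.2 := congrArg Prod.snd h1
    have h3 : (unop (a * x.2)).set = (unop (a * y.2)).set := by rw [h2]
    have h4 : (unop x.2).set ∪ (fun z => (unop x.2).elt * z) '' {RZ.e} =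
        (unop y.2).set ∪ (fun z => (unop y.2).elt * z) '' {RZ.e} := h3
    rw [Set.image_singleton, Set.image_singleton, mul_e, mul_e] at h4
    exact h4
  -- second components of the generators
  let R0 : Set RZ := (fun p => (unop p.1.2).elt) '' G ∪ (fun p => (unop p.2.2).elt) '' G
  have hR0f : R0.Finite := (hG.image _).union (hG.image _)
  have hinf : Set.Infinite (Set.range RZ.r \ R0) := by
    refine Set.Infinite.sdiff ?_ hR0f
    exact Set.infinite_range_of_injective (fun m n h => RZ.r.inj h)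
  obtain ⟨x₁, ⟨⟨k, rfl⟩, hk⟩⟩ := hinf.nonempty
  obtain ⟨x₂, ⟨⟨⟨l, rfl⟩, hl⟩, hkl⟩⟩ := (hinf.sdiff (Set.finite_singleton (RZ.r k))).nonempty
  have hkl' : RZ.r l ≠ RZ.r k := hkl
  let C : Set RZ := {RZ.r k, RZ.r l}
  have hrel := (hker ((0 : Fin 1), op ⟨C, RZ.r k⟩) ((0 : Fin 1), op ⟨C, RZ.r l⟩)).1 (by
    apply hcond
    show C ∪ {RZ.r k} = C ∪ {RZ.r l}
    have h1 : C ∪ {RZ.r k} = C := by
      apply Set.union_eq_self_of_subset_right
      intro z hz
      exact Or.inl hz
    have h2 : C ∪ {RZ.r l} = C := by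
      apply Set.union_eq_self_of_subset_right
      intro z hz
      exact Or.inr hz
    rw [h1, h2])
  -- the invariant
  let I : FreeAct SRZᵐᵒᵖ 1 → Prop := fun x =>
    (unop x.2).set ∪ {(unop x.2).elt} = C ∧ (unop x.2).elt = RZ.r k
  have key : ∀ p q : FreeAct SRZᵐᵒᵖ 1, π p = π q → (unop p.2).elt ∈ R0 → (unop q.2).elt ∈ R0 →
      ∀ s : SRZᵐᵒᵖ, I (ract p s) → I (ract q s) := by
    intro p q hpq hp0 hq0 s hI
    obtain ⟨hI1, hI2⟩ := hI
    have hI2' : (unop s).elt * (unop p.2).elt = RZ.r k := hI2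
    have hpq' := hcond' p q hpq
    have hst : π (ract p s) = π (ract q s) := by rw [hπ, hπ, hpq]
    have hst' := hcond' _ _ hst
    refine ⟨hst'.symm.trans hI1, ?_⟩
    show (unop s).elt * (unop q.2).elt = RZ.r k
    cases hpe : (unop p.2).elt with
    | r j =>
      exfalso
      rw [hpe, mul_r] at hI2'
      rw [hI2'] at hpe
      exact hk (hpe ▸ hp0)
    | e =>
      rw [hpe, mul_e] at hI2'
      cases hqe : (unop q.2).elt with
      | e =>
        rw [mul_e]
        exact hI2'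
      | r j =>
        exfalso
        have h1 : RZ.r j ∈ (unop p.2).set := by
          have h2 : RZ.r j ∈ (unop p.2).set ∪ {(unop p.2).elt} := by
            rw [hpq', hqe]
            exact Or.inr rfl
          rw [hpe] at h2
          rcases h2 with h2 | h2
          · exact h2
          · exact absurd h2 (fun h => RZ.noConfusion h)
        have h3 : RZ.r j ∈ (unop (ract p s : FreeAct SRZᵐᵒᵖ 1).2).set := by
          show RZ.r j ∈ (unop s).set ∪ (fun z => (unop s).elt * z) '' (unop p.2).set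
          exact Or.inr ⟨RZ.r j, h1, rfl⟩
        have h4 : RZ.r j ∈ C := hI1 ▸ Or.inl h3
        have h5 : RZ.r j ∈ R0 := hqe ▸ hq0
        rcases h4 with h4 | h4
        · exact hk (h4 ▸ h5)
        · have h4' : RZ.r j = RZ.r l := h4
          exact hl (h4' ▸ h5)
  have hfinal : I ((0 : Fin 1), op ⟨C, RZ.r k⟩) ↔ I ((0 : Fin 1), op ⟨C, RZ.r l⟩) := by
    refine conGen_induct G (fun u v => I u ↔ I v) ⟨fun _ => Iff.rfl, fun h => h.symm,
      fun h1 h2 => h1.trans h2⟩ ?_ hrel
    intro p hp s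
    have h1 : π p.1 = π p.2 := (hker _ _).2 (ConGen.of p hp)
    have h2 : (unop p.1.2).elt ∈ R0 := Or.inl ⟨p, hp, rfl⟩
    have h3 : (unop p.2.2).elt ∈ R0 := Or.inr ⟨p, hp, rfl⟩
    exact ⟨key p.1 p.2 h1 h2 h3 s, key p.2 p.1 h1.symm h3 h2 s⟩
  have hI : I ((0 : Fin 1), op ⟨C, RZ.r k⟩) := by
    refine ⟨?_, rfl⟩
    show C ∪ {RZ.r k} = C
    apply Set.union_eq_self_of_subset_right
    intro z hz
    exact Or.inl hz
  exact hkl' (hfinal.1 hI).2

/-- **Main theorem.**  For the infinite right zero band with identity `M`, the monoid `S(M)` is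
right coherent and not left coherent.  Hence there are monoids `M` and `T` such that `S(M)` is
non-coherent, `T` contains `S(M)` as a subsemigroup, and `T` is left coherent or right
coherent. -/
theorem result :
    (RightCoherent (SP RZ) ∧ ¬ LeftCoherent (SP RZ)) ∧
    ∃ (M T : Type) (_ : Monoid M) (_ : Monoid T), ¬ Coherent (SP M) ∧
      (∃ f : SP M →ₙ* T, Function.Injective f) ∧ (LeftCoherent T ∨ RightCoherent T) := by
  refine ⟨⟨rightCoherent_SRZ, not_leftCoherent_SRZ⟩, RZ, SP RZ, inferInstance, inferInstance,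
    fun h => not_leftCoherent_SRZ h.1, ⟨MulHom.id _, fun _ _ h => h⟩, Or.inr rightCoherent_SRZ⟩

end Pool.Agent.Results.MP_811a2c_al.OneSidedCoherent
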